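import Pool.Agent.U191.FK.Cyc

/-!
# Homologically trivial cycles on quotients of products of curves

`𝒱` is a class of smooth projective geometrically irreducible varieties over the field `k` closed
under products (for the problem: all of them, over the algebraic numbers `k ⊆ ℂ`), `C` the Chow groups
with rational coefficients, `H` a Weil cohomology theory with complex coefficients and `D` the Hodge
decompositions (singular cohomology).

Let `X = C_1 × ⋯ × C_n × B`, where `B` has dimension zero and the `C_i` are curves with actions of
finite groups `G_i`, all irreducible characters of which have values in a number field `K` which is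
totally real (for example symmetric and dihedral groups, and all other groups whose elements are
conjugate to their inverses), or imaginary quadratic, or a CM field of degree four.

**Theorem.** (1) Let `Z` be a variety whose motive is a direct summand of a finite sum of twists of
motives of the following two kinds: `(X, e)` with `e = ∑ a(γ) [γ]`, where `a` is an element of the
rational group algebra of `G_1 × ⋯ × G_n` which is zero on `H^{p,q}(X)` for `|p - q| > 1`; and `h(Y)`,
where `Y` is a quotient of `X`, or a direct summand cut out by an element of the group algebra, of
Hodge level at most one. Then for every `m` with `H^(2m-1)(Z) = 0` all homologically trivial cycle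
classes of codimension `m` on `Z` vanish, with rational coefficients.

(2) Let `Y` be a quotient of `X`, or a direct summand of the same dimension which is cut out by an
element of the group algebra, such that `H^{p,q}(Y) = 0` if `|p - q| > 1` and `min (p, q) < c`. Then
for every `m` with `dim Y - m < c` and `H^(2m-1)(Y) = 0` all homologically trivial cycle classes of
codimension `m` (dimension less than `c`) on `Y` vanish, with rational coefficients.
-/

set_option autoImplicit false

open CategoryTheory AlgebraicGeometry

universe u v

namespace Pool.Agent.Results.MP_32dfd1_ag.CurveQuotients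

open Pool.Agent.H914 Pool.Agent.H914.VarClass Pool.Agent.H914.VarClass.Obj Pool.Agent.W492.BB
  Pool.Agent.TH133 Pool.Agent.U191.EY Pool.Agent.U191.FL

/-- **Vanishing of homologically trivial cycles of codimension `m` if `H^(2m-1) = 0`**, for varieties
built from products of curves with actions of finite groups. -/
theorem result {k : Type u} [Field k] {𝒱 : VarClass k} {C : TheoryData.{u, v, 0} 𝒱 ℚ}
    [IsChowProj C] {H : WeilTheoryData.{u, v, 0} C ℂ} [IsWeilProj H]
    {D : ∀ V : 𝒱.Obj, HodgeRing (H.A V)} (hD : IsHodgeTheory H D) (hN : KimuraTheorem H)
    (hA : AbelTheorem H) :
    (∀ Z : 𝒱.Obj, IsBuiltOfLevel H D 1 (gph C (𝟙 Z)) → ∀ m : ℤ, HomVanishing H Z m) ∧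
      ∀ (B : 𝒱.Obj) (L : List (GCurve 𝒱)) (Y : 𝒱.Obj) (c : ℕ), B.dim = 0 → AreGood H D L →
        IsCut C B L Y → Y.dim = (prodL B L).dim → HasLevel (D Y) 1 c →
          ∀ m : ℤ, (Y.dim : ℤ) < m + c → HomVanishing H Y m :=
  ⟨fun _ hZ m => homVanishing_of_level hD hN hA hZ m,
    fun _ _ _ _ hB hL hY hdim hl _ hm => homVanishing_of_mixed hD hN hA hB hL hY hdim hl hm⟩

end Pool.Agent.Results.MP_32dfd1_ag.CurveQuotients
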