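import Pool.Agent.U226.FX.Even

/-!
# Homologically trivial cycles on products `Z × X ^ n` of varieties without odd cohomology

Let `X` be a smooth projective variety over `ℚ̄` with `H^i (X) = 0` for all odd `i`: K3 surfaces, surfaces
with `q = 0`, cubic fourfolds, complete intersections of even dimension and many others. Let `b` be its
total Betti number. Let `Z` be a nonempty smooth projective variety over `ℚ̄`. If also `Z` has no odd
cohomology (for example `Z` a point) then no product `Z × X ^ n` has odd cohomology, and the question
predicts that there are no homologically trivial cycles up to torsion on `Z × X ^ n`, of any codimension.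
Let `δ (n)` be the dimension of the space of the homologically trivial cycles on `Z × X ^ n` (all
codimensions, rational coefficients), a number or infinity, and `ρ_Z (n)`, `ρ (n)` the ranks of the groups of
cycles on `Z × X ^ n` and `X ^ n` modulo numerical equivalence.

Theorem (for every `Z`).
(1) `δ (n) / ρ (n)` and `ρ_Z (n) / ρ (n)` converge for `n → ∞`; the limits `N`, `d` are natural numbers or
infinity; `d > 0`, and `d ≤ b(Z)` if `Z` has no odd cohomology. `N = 0` if and only if there are no
homologically trivial cycles on all `Z × X ^ n`.
(2) One inequality suffices: if `2 δ (n) < ρ (n)` for one `n ≥ 128 (m + 1) ^ 2 b ^ (2 m + 6)` then there are no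
homologically trivial cycles on `Z × X ^ m`; the bound does not depend on `Z`; for `m = 0` this is a criterion
for `Z` itself. If there is one on `Z × X ^ m` then `δ (2 n) ≥ b ^ (2 n) / (2 (n + 1) ^ (b ^ 2))` for all those
`n`, where `b ^ (2 n)` is the dimension of the cohomology of `X ^ (2 n)`.
(3) If `N` is a number `k`, for example if `δ (n) ≤ c ρ (n)` for infinitely many `n`, for ONE `Z`, then all
homologically trivial correspondences `y` from `X ^ n` to itself satisfy `y ^ (k + 1) = 0`,
`α × ⋯ × α = 0` (`k + 1` factors) for all homologically trivial cycles `α` on `X ^ n`, and **the exterior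
power `Λ^(b + 1) h(X)` of the Chow motive of `X` is zero** (finite-dimensionality in the sense of
Kimura, with the expected dimension `b`).

For K3 surfaces over `ℚ̄` the finite-dimensionality of the motive and the vanishing of `δ (1)` are open in
general. By (3) a bound for the sizes of the groups
on the powers is enough for the finite-dimensionality, and if the motive is not finite-dimensional, then
for EVERY `Z` the group of homologically trivial cycles on `Z × X ^ n` is larger than every multiple
of `ρ (n)`.

Related: `MP_537ea0_ag.KernelLaw` (kernels of the Abel–Jacobi maps, odd cohomology allowed; there the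
groups of homologically trivial cycles are infinite-dimensional), the starting results
`MP_f4876d_ag.SeparatednessLaw` and, if the cohomology of `X` is spanned by algebraic cycles,
`MP_762f97_ag.ExponentialGap`. New are the factor `Z` and the explicit exponents.

The setting. `C` is the category of Chow motives over `ℚ̄` with the correspondences of all degrees as
morphisms, a rigid symmetric monoidal pseudo-abelian category, `T = h(X)`, `tp T n = h(X ^ n)`,
`B = h(Z)`, `𝟙_ C ⟶ B ⊗ tp T n` is `CH^*(Z × X ^ n)_ℚ`; `R` is the Betti cohomology, `R.par` the involution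
`(-1)^i` on `H^i`, so that `R.par T = 𝟙` means that there is no odd cohomology. `asym (-1) T n` is the
antisymmetrizer, whose image is the exterior power `Λ^n h(X)`.

Idea of the proof. The functor `Y ↦ CH_hom (Z × Y)` is additive; the law of the values of additive functors
(starting library `N64.AF`) applies to the powers of `X`, as `C⁺` holds trivially. If the limit is a
number `k` then `k` numerically trivial correspondences act as zero. Let `β` be a class on `Z × X ^ p`
with a dual class. For a homologically trivial `y` the product of `β` and `y` is homologically trivial, so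
`β × y^(k + 1) = 0`, and one contracts with the dual class. The antisymmetrizer in degree `b + 1` is a
homologically trivial idempotent, so it vanishes.
-/

set_option autoImplicit false

open CategoryTheory MonoidalCategory Module Filter Topology
open Pool.Agent.Y112.SR Pool.Agent.Y112.KD Pool.Agent.N64.AF Pool.Agent.U226.FX
open scoped ENNReal

namespace Pool.Agent.Results.MP_32dfd1_ag.EvenLaw

universe v u w

/-- The law for the homologically trivial classes on the products of an arbitrary `B` with the powers of
an object `T` without odd part. -/
theorem result {C : Type u} [Category.{v} C] [Preadditive C] [MonoidalCategory C]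
    [MonoidalPreadditive C] [SymmetricCategory C] [RightRigidCategory C]
    [Linear ℚ C] [MonoidalLinear ℚ C] [IsIdempotentComplete C]
    {K : Type w} [Field K] [IsAlgClosed K] [Algebra ℚ K] (R : SuperRealisation C K)
    (hR : IsReal ℚ R) (T : C) [ExactPairing T T] (hev : R.par T = 𝟙 _)
    (hret : ∃ (i : 𝟙_ C ⟶ T) (r : T ⟶ 𝟙_ C), i ≫ r = 𝟙 (𝟙_ C)) (B : C) :
    ∃ N d : ℕ∞, RatioTo ℚ T (homDim hR B T) N ∧ RatioTo ℚ T (rankSeq ℚ B T) d ∧
      (N = 0 ↔ ∀ (n : ℕ) (α : 𝟙_ C ⟶ B ⊗ tp T n), R.H.map α = 0 → α = 0) ∧
      (d = 0 ↔ ∀ (n : ℕ) (α : 𝟙_ C ⟶ B ⊗ tp T n), NumTriv α) ∧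
      (R.par B = 𝟙 _ → d ≤ bt R B) ∧
      (d ≠ 0 → ∀ k : ℕ, N = k →
        (∀ (n : ℕ) (y : End (tp T n)), R.H.map (y : tp T n ⟶ tp T n) = 0 → y ^ (k + 1) = 0) ∧
        (∀ (n : ℕ) (α : 𝟙_ C ⟶ tp T n), R.H.map α = 0 → tpow α (k + 1) = 0) ∧
        asym (-1) T (bt R T + 1) = 0) ∧
      ∀ (m n : ℕ) (α : 𝟙_ C ⟶ B ⊗ tp T m), R.H.map α = 0 → α ≠ 0 →
        128 * (m + 1) ^ 2 * bt R T ^ (2 * m + 6) ≤ n →
          (numRank ℚ (tp T n) : ℕ∞) ≤ 2 * homDim hR B T n ∧
          ((bt R T ^ (2 * n) : ℕ) : ℕ∞) ≤
            (2 * (n + 1) ^ (bt R T ^ 2) : ℕ) * homDim hR B T (n + n) :=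
  even_law hR hev hret B

end Pool.Agent.Results.MP_32dfd1_ag.EvenLaw
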