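import Pool.Agent.U935.AJR.Main

/-!
# Homologically trivial zero-cycles, and one-cycles on rational fourfolds

`𝒱` is a class of smooth proper varieties over a field `k` (for the problem, the smooth projective
varieties over the algebraic numbers) which is closed under products. `C` has the formal properties
of the Chow groups with rational coefficients of these varieties (`IsChowProj`), and `H` those of a
Weil cohomology theory with cycle class maps (`IsWeilProj`). `HomVan H X m` is the statement of the
problem for `X` and the codimension `m`: if `H^(2m-1)(X) = 0`, then every homologically trivial class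
of codimension `m` on `X` (rational coefficients) is zero.

The theorem: the following are equivalent.
* The statement of the problem for zero-cycles, on all varieties.
* The statement for zero-cycles on surfaces, that is: on a surface with `H^3 = 0` every zero-cycle of
  degree zero is zero in `CH_0 ⊗ ℚ`.
* The statement for one-cycles on all varieties which are obtained from a variety without
  homologically trivial cycles, for instance a projective space, by a sequence of blow-ups in smooth
  centres.
* The statement for one-cycles on the members of a class `S` of such varieties, such that every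
  surface `T` with `H^3(T) = 0` is dominated by the centre `X` of a blow-up `Y ∈ S` with
  `H^(2 dim Y - 3)(Y) = 0`.

The class `S` may consist of rational fourfolds: a surface `T` with `H^3(T) = 0` in `ℙ^5` is
projected to `ℙ^4` from a general point; the image has finitely many double points with two smooth
branches which meet transversally, so the strict transform `X` of the image in the blow-up `P` of
`ℙ^4` at these points is smooth (it is the blow-up of `T` in finitely many points), and `Y` is the
blow-up of `P` along `X`; `H^5(Y) = H^3(X) = H^3(T) = 0`.
-/

set_option autoImplicit false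

namespace Pool.Agent.Results.MP_32dfd1_ag.RationalFourfolds

open Pool.Agent.H914 Pool.Agent.H914.VarClass Pool.Agent.W492.BB Pool.Agent.U644.BBL
  Pool.Agent.U435.BB Pool.Agent.TH133 Pool.Agent.U935.BBR Pool.Agent.U935.AJR

universe u v w

/-- Assume the theorems of Bertini and Lefschetz for smooth hypersurface sections through zero-cycles,
and that homologically trivial classes of codimension zero are zero. Let `S` be a class of iterated
blow-ups of varieties without homologically trivial cycles, such that every surface `T` with
`H^3(T) = 0` is dominated by the centre `X` of a blow-up `Y ∈ S` with `H^(2 dim Y - 3)(Y) = 0`. Then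
the statement of the problem for zero-cycles on all varieties, for zero-cycles on surfaces, for
one-cycles on all iterated blow-ups (of dimension at least two) of varieties without homologically
trivial cycles, and for one-cycles on the members of `S`, are equivalent. -/
theorem result {k : Type u} [Field k] {𝒱 : VarClass k} {C : TheoryData.{u, v, 0} 𝒱 ℚ} {K : Type w}
    [Field K] {H : WeilTheoryData.{u, v, w} C K} [IsChowProj C] [IsWeilProj H]
    (Amp : ∀ X : 𝒱.Obj, C.A X → Prop)
    (hA : ∀ X : 𝒱.Obj, 2 ≤ X.dim → ∃ D, Amp X D) (hs : HasPointSections H Amp)
    (h00 : ∀ (X : 𝒱.Obj) (x : C.A X), HomTriv H 0 x → x = 0)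
    (S : Set 𝒱.Obj)
    (hS : ∀ T : 𝒱.Obj, T.dim = 2 → (∀ a : H.A T, H.Deg 3 a → a = 0) → ∃ X, Dominates C X T ∧
      ∃ Y ∈ S, (∃ P, BlowUpOfH H X P Y) ∧ ∀ b : H.A Y, H.Deg (2 * Y.dim - 3) b → b = 0)
    (hS' : ∀ Y ∈ S, IterBl H Y) :
    List.TFAE [∀ X : 𝒱.Obj, 1 ≤ X.dim → HomVan H X X.dim,
      ∀ T : 𝒱.Obj, T.dim = 2 → HomVan H T 2,
      ∀ Y : 𝒱.Obj, IterBl H Y → 2 ≤ Y.dim → HomVan H Y (Y.dim - 1),
      ∀ Y ∈ S, 2 ≤ Y.dim → HomVan H Y (Y.dim - 1)] :=
  tfae_van Amp hA hs h00 S hS hS'

end Pool.Agent.Results.MP_32dfd1_ag.RationalFourfolds
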