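import Mathlib
import Pool.Agent.U755.VN.Pure
import Pool.Agent.U606.MD.Ghc

/-!
# Homologically trivial cycles of dimension `i` and the cohomology of degree `2 i + 1`

Let `X` be a complex abelian variety (`AV`, up to isogeny) in one of the classes (a), (b) below, and
`M = (X, p)` a direct summand of the Chow motive of `X`, for example `M = h(V)`, where `V` is a smooth
projective variety which is the image of `X`, or the image of a product of curves of positive genus
such that the product of their Jacobians is `X`.

**Theorem.** Let `i ≥ 0` be an integer such that `H_(2 i + 1)(M) = 0`. Suppose that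

* `h^(s, t)(M) = 0` for all `s, t` such that `s + t ≥ 2 i + 2` and `min (s, t) ≤ i`;
* `h^(s, t)(M) = 0` for all `s, t` such that `s + t ≤ 2 i` and `max (s, t) ≥ i + 2`.

Then every homologically trivial cycle of dimension `i` on `M` is zero (rational coefficients). This
holds over the complex numbers, so if `V` is defined over the algebraic closure of `ℚ` then it holds
for the cycles defined over this field, since they inject into the complex ones (with rational
coefficients).

For a variety `V` of dimension `d` and the cycles of codimension `m = d - i`, by Poincaré duality: if
`H^(2 m - 1)(V, ℚ) = 0`, `h^(a, b)(V) = 0` for `a + b ≤ 2 m - 2`, `max (a, b) ≥ m`, and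
`h^(a, b)(V) = 0` for `a + b ≥ 2 m`, `min (a, b) ≤ m - 2`, then the homologically trivial cycles of
codimension `m` on `V` are torsion. So for `m = 2`: if `H^3(V, ℚ) = 0`, `h^(2, 0)(V) = 0` and
`h^(k, 0)(V) = 0` for `k ≥ 4`.

In particular, let `c ≥ 0` be an integer such that `h^(s, t)(M) = 0` for all `s, t` with
`|s - t| ≥ 2`, `min (s, t) ≤ c`. Then for all `i ≤ c` with `H_(2 i + 1)(M) = 0` the homologically
trivial cycles of dimension `i` on `M` are zero; for all `i`, if the Hodge level of `M` is at most
one.

The classes (a) and (b) (`IsGood` in `Pool.Agent.U606.MD.Defs`) are those of the starting file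
`Pool.Agent.Results.MP_1c689d_ag.AbelianDominated`, where `P` is the class of the simple abelian
varieties of any dimension with small or generic period fields (`Pool.Agent.N994.PG.Stm`):

(a) all simple factors of `X` are in `P` or are factors of an abelian variety of dimension at most
three (for instance, `X` is a product of powers of at most three elliptic curves);

(b) there are finitely many CM types `T k`, divided into independent blocks, such that for each block
all CM types of the CM fields in this block are conjugate, or the total dimension of the block is at
most three, or the block consists of all CM types of a Galois CM field of degree at most six; and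
each simple factor of `X` is in `P`, or is a factor of one of the abelian varieties with the CM types
`T k`, or has no complex multiplication and belongs to one of the classes in `Typ` (of any
dimension), where an imaginary quadratic field which acts with two different multiplicities on the
tangent space must be the field of an elliptic curve of the first kind (fourfolds with such an
action are excluded).

The structures `ChowTheory` (`Pool.Agent.N178.BL.Defs`) and `Projectors` (`Pool.Agent.N178.MU.Defs`)
collect the known properties of the Chow groups of complex abelian varieties which are used: the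
formal properties of correspondences; Kimura's theorem that homologically trivial endomorphisms of
the motive are nilpotent; the semisimplicity of the category of motives of abelian varieties modulo
homological equivalence (Jannsen, Lieberman); the algebraic classes are a system `Sys` (Lefschetz,
Markman); the algebraicity of the isomorphisms `H^n(Y, ℚ) ≅ H_n(Y, ℚ)` given by a polarization
(Lieberman); the projectors of Deninger and Murre; the vanishing of the cycles of codimension at most
one on `h^n(Y)` for large `n`, and of the homologically trivial divisors on `h^2(Y)` (Beauville,
Künnemann).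

The proof. The generalized Hodge conjecture holds for `X`. It shows that the action of `p` on
`H^m(X, ℚ)` is the one of a sum of correspondences which factor through `h_n(Y)(k)`, for abelian
varieties `Y`, where `n = m - 2 k`, and `k = max (m - i - 1, 0)` if `m ≤ 2 i`, and `k = i + 1` if
`m ≥ 2 i + 2`. In the first case the image of `z` in `CH_(i - k)(h_n(Y))` is a homologically trivial
cycle of codimension at most one on `h^n` of the dual abelian variety, and it is zero
(`Pool.Agent.N178.MU.Wt_zero`); in the second case it is a cycle of negative dimension. So there is a
correspondence `T` which acts as `p` on the cohomology and maps all homologically trivial cycles of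
dimension `i` to zero. The correspondence `ν = p - T` is nilpotent, and `z = ν z`, so `z = 0`.
-/

namespace Pool.Agent.Results.MP_32dfd1_ag.SmallHodgeLevel

open Module Pool.Agent.Y90
open Pool.Agent.N178.BL (ChowTheory)
open Pool.Agent.N178.MU (Projectors HodgeZero)
open Pool.Agent.U606.MD (IsGood)

/-- Each cycle of dimension `i` on the motive `M = (X, p)` which is homologically trivial is zero. The
cycles on `X` are the correspondences from the point `O` to `X`, those on `M` are the cycles `z` with
`p z = z`. -/
def Injective {C : ChowTheory} (O : AV) {X : AV} (p : C.Co X X) (i : ℕ) : Prop :=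
  ∀ z : C.Co O X, C.IsDeg i z → C.o p z = z → (∀ ω, C.pb z ω = 0) → z = 0

/-- The Hodge numbers `h^(s, t)(M)` of `M = (X, p)` are zero if `s + t ≥ 2 i + 2`, `min (s, t) ≤ i`,
and if `s + t ≤ 2 i`, `max (s, t) ≥ i + 2`. -/
def SmallLevel {C : ChowTheory} {X : AV} (p : C.Co X X) (i : ℕ) : Prop :=
  ∀ s t : ℕ, (2 * i + 2 ≤ s + t ∧ min s t ≤ i) ∨ (s + t ≤ 2 * i ∧ i + 2 ≤ max s t) →
    HodgeZero p s t

/-- **Homologically trivial cycles** on the direct summands `M = (X, p)` of the Chow motives of the
abelian varieties `X` in the classes (a), (b), where `O` is the point: they are zero in dimension `i`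
if `H_(2 i + 1)(M) = 0` and the Hodge numbers in `SmallLevel` are zero; in particular for all `i ≤ c`
such that `H_(2 i + 1)(M) = 0` if `h^(s, t)(M) = 0` for `|s - t| ≥ 2`, `min (s, t) ≤ c`. -/
theorem result (C : ChowTheory) (K : Projectors C) (O : AV) (hO : finrank ℚ O.H = 0)
    (X : AV) (hX : IsGood X) (p : C.Co X X) (hp : C.IsMotive p) :
    (∀ i : ℕ, C.img p (2 * i + 1) = ⊥ → SmallLevel p i → Injective O p i) ∧
      ∀ c : ℕ, (∀ s t : ℕ, 2 ≤ |(s : ℤ) - t| → min s t ≤ c → HodgeZero p s t) →
        ∀ i ≤ c, C.img p (2 * i + 1) = ⊥ → Injective O p i := by
  have h1 : ∀ i : ℕ, C.img p (2 * i + 1) = ⊥ → SmallLevel p i → Injective O p i :=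
    fun i hodd h z hz hpz h0 => Pool.Agent.U755.VN.pure K hO (Pool.Agent.U606.MD.ghc hX) hp
      (fun s t h2 h3 => h s t (Or.inr ⟨h2, by rw [le_max_iff]; exact h3⟩))
      (fun s t h2 h3 => h s t (Or.inl ⟨h2, by rw [min_le_iff]; exact h3⟩)) hodd hz hpz h0
  refine ⟨h1, fun c h i hi hodd => h1 i hodd fun s t h2 => h s t ?_ ?_⟩
  · rw [le_abs]
    omega
  · omega

end Pool.Agent.Results.MP_32dfd1_ag.SmallHodgeLevel
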